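import Pool.Agent.Y772.TW.CaseB
import Pool.Agent.Y772.SG.Per

/-!
# Totally positive integers and their norms
-/

set_option autoImplicit false

open NumberField Complex

namespace Pool.Agent.Y772.TW

open Pool.Agent.Y773 Pool.Agent.Y772.SG

variable {K : Type} [Field K] [NumberField K]

lemma norm_prod_emb (x : K) : ((Algebra.norm ℚ x : ℚ) : ℂ) = ∏ φ : K →+* ℂ, φ x := by
  have h := Algebra.norm_eq_prod_embeddings ℚ ℂ x
  rw [show ((Algebra.norm ℚ x : ℚ) : ℂ) = algebraMap ℚ ℂ (Algebra.norm ℚ x) from rfl, h]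
  exact (Fintype.prod_equiv (RingHom.equivRatAlgHom K ℂ) (fun f => f x)
    (fun φ => φ x) fun _ => by simp [RingHom.equivRatAlgHom_apply]).symm

/-- the norm of a totally positive integer is positive -/
lemma norm_pos {x : 𝓞 K} (hx : x ≠ 0) (h : TPos K x) : 0 < Algebra.norm ℤ x := by
  classical
  have hx0 : (x : K) ≠ 0 := by simpa using hx
  have key : ∃ r : ℝ, 0 < r ∧ (∏ φ : K →+* ℂ, φ (x : K)) = (r : ℂ) := by
    rw [← Finset.prod_fiberwise (Finset.univ : Finset (K →+* ℂ)) InfinitePlace.mk]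
    refine Finset.prod_induction _ (fun z : ℂ => ∃ r : ℝ, 0 < r ∧ z = (r : ℂ)) ?_ ?_ ?_
    · rintro a b ⟨r, hr, rfl⟩ ⟨s, hs, rfl⟩
      exact ⟨r * s, mul_pos hr hs, by push_cast; rfl⟩
    · exact ⟨1, one_pos, by simp⟩
    · intro w _
      set φ₀ := w.embedding with hφ₀
      have hfil : (Finset.univ.filter fun φ : K →+* ℂ => InfinitePlace.mk φ = w) =
          {φ₀, ComplexEmbedding.conjugate φ₀} := by
        ext φ
        rw [Finset.mem_filter, Finset.mem_insert, Finset.mem_singleton]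
        constructor
        · rintro ⟨-, h1⟩
          have h2 : InfinitePlace.mk φ₀ = InfinitePlace.mk φ := by
            rw [h1, hφ₀, InfinitePlace.mk_embedding]
          rcases InfinitePlace.mk_eq_iff.1 h2 with h3 | h3
          · exact Or.inl h3.symm
          · exact Or.inr h3.symm
        · rintro (rfl | rfl)
          · exact ⟨Finset.mem_univ _, InfinitePlace.mk_embedding w⟩
          · exact ⟨Finset.mem_univ _, by
              rw [InfinitePlace.mk_conjugate_eq]; exact InfinitePlace.mk_embedding w⟩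
      rw [hfil]
      by_cases hr : w.IsReal
      · have h1 : ComplexEmbedding.conjugate φ₀ = φ₀ :=
          ComplexEmbedding.isReal_iff.1 (InfinitePlace.isReal_iff.1 hr)
        rw [h1, Finset.insert_eq_of_mem (Finset.mem_singleton_self _), Finset.prod_singleton]
        refine ⟨InfinitePlace.embedding_of_isReal hr (x : K), h _, ?_⟩
        exact (InfinitePlace.embedding_of_isReal_apply hr (x : K)).symm
      · have h1 : φ₀ ≠ ComplexEmbedding.conjugate φ₀ := by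
          intro h2
          exact hr (InfinitePlace.isReal_iff.2 (ComplexEmbedding.isReal_iff.2 h2.symm))
        rw [Finset.prod_pair h1]
        refine ⟨Complex.normSq (φ₀ (x : K)), Complex.normSq_pos.2 ((map_ne_zero _).2 hx0), ?_⟩
        rw [ComplexEmbedding.conjugate_coe_eq, Complex.mul_conj]
  obtain ⟨r, hr, hr'⟩ := key
  rw [← norm_prod_emb] at hr'
  have h1 : ((Algebra.norm ℚ (x : K) : ℚ) : ℝ) = r := by
    have : (((Algebra.norm ℚ (x : K) : ℚ) : ℝ) : ℂ) = (r : ℂ) := by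
      rw [← hr']; norm_cast
    exact_mod_cast this
  have h2 : (0 : ℝ) < ((Algebra.norm ℚ (x : K) : ℚ) : ℝ) := by rw [h1]; exact hr
  have h3 : (0 : ℚ) < Algebra.norm ℚ (x : K) := by exact_mod_cast h2
  rw [← Algebra.coe_norm_int] at h3
  exact_mod_cast h3

/-- the ideal norm of a totally positive integer -/
lemma absNorm_tpos {x : 𝓞 K} (hx : x ≠ 0) (h : TPos K x) :
    ((Ideal.absNorm (Ideal.span {x}) : ℕ) : ℤ) = Algebra.norm ℤ x := by
  rw [Ideal.absNorm_span_singleton]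
  exact Int.natAbs_of_nonneg (norm_pos hx h).le

/-- adding a large multiple of an integer -/
lemma exists_tpos (x : 𝓞 K) {c : ℕ} (hc : 0 < c) :
    ∃ k : ℕ, TPos K (x + (k : 𝓞 K) * (c : 𝓞 K)) ∧ x + (k : 𝓞 K) * (c : 𝓞 K) ≠ 0 := by
  classical
  have hfin : Finite (K →+* ℝ) := by
    refine Finite.of_injective (fun σ : K →+* ℝ => (Complex.ofRealHom.comp σ : K →+* ℂ)) ?_
    intro σ τ h
    ext y
    have h1 := congrArg (fun f : K →+* ℂ => f y) h
    exact Complex.ofReal_injective h1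
  have hft : Fintype (K →+* ℝ) := Fintype.ofFinite _
  obtain ⟨k, hk⟩ := exists_nat_gt (∑ σ : K →+* ℝ, |σ (x : K)|)
  have hpos : ∀ l : ℕ, k ≤ l → TPos K (x + (l : 𝓞 K) * (c : 𝓞 K)) := by
    intro l hl σ
    have h1 : |σ (x : K)| ≤ ∑ σ : K →+* ℝ, |σ (x : K)| :=
      Finset.single_le_sum (f := fun σ : K →+* ℝ => |σ (x : K)|)
        (fun _ _ => abs_nonneg _) (Finset.mem_univ σ)
    push_cast
    rw [map_add, map_mul, map_natCast, map_natCast]
    have h2 := neg_abs_le (σ (x : K))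
    have h3 : (1 : ℝ) ≤ c := by exact_mod_cast hc
    have h4 : (k : ℝ) ≤ l := by exact_mod_cast hl
    have h5 : (0 : ℝ) ≤ l := Nat.cast_nonneg l
    nlinarith
  by_cases h0 : x + (k : 𝓞 K) * (c : 𝓞 K) = 0
  · refine ⟨k + 1, hpos _ (Nat.le_succ k), ?_⟩
    intro h1
    have h2 : (c : 𝓞 K) = 0 := by
      push_cast at h1
      linear_combination h1 - h0
    exact hc.ne' (by exact_mod_cast h2)
  · exact ⟨k, hpos _ le_rfl, h0⟩

/-- an ideal is prime to `(q)` iff its norm is prime to `q` -/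
lemma coprime_q {𝔞 : Ideal (𝓞 K)} {q : ℕ} :
    IsCoprime 𝔞 (Ideal.span {(q : 𝓞 K)}) ↔ Nat.Coprime (Ideal.absNorm 𝔞) q := by
  constructor
  · intro h
    obtain ⟨a, ha, b, hb, hab⟩ := (Ideal.isCoprime_iff_exists).1 h
    have h1 : a - 1 ∈ Ideal.span {(q : 𝓞 K)} := by
      have : a - 1 = -b := by rw [← hab]; ring
      rw [this]
      exact neg_mem hb
    have h2 := norm_eq_of_sub h1
    rw [map_one, Int.cast_one] at h2
    have h3 : IsUnit ((Algebra.norm ℤ a : ℤ) : ZMod q) := by rw [h2]; exact isUnit_one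
    have h4 : (Ideal.absNorm 𝔞 : ℤ) ∣ Algebra.norm ℤ a := Pool.Agent.W45.Ch.dvd_norm K 𝔞 ha
    obtain ⟨c, hc⟩ := h4
    rw [hc] at h3
    push_cast at h3
    have h5 : IsUnit ((Ideal.absNorm 𝔞 : ℕ) : ZMod q) := isUnit_of_mul_isUnit_left h3
    exact (ZMod.isUnit_iff_coprime _ _).1 h5
  · intro h
    have h1 : IsCoprime ((Ideal.absNorm 𝔞 : ℕ) : ℤ) (q : ℤ) := Nat.isCoprime_iff_coprime.2 h
    obtain ⟨u, v, huv⟩ := h1
    rw [Ideal.isCoprime_iff_exists]
    refine ⟨(u : 𝓞 K) * (Ideal.absNorm 𝔞 : 𝓞 K), 𝔞.mul_mem_left _ (Ideal.absNorm_mem 𝔞),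
      (v : 𝓞 K) * (q : 𝓞 K), Ideal.mul_mem_left _ _ (Ideal.mem_span_singleton_self _), ?_⟩
    exact_mod_cast congrArg (Int.cast : ℤ → 𝓞 K) huv

/-- CRT with a totally positive integer -/
lemma crt_tpos {𝔣 : Ideal (𝓞 K)} (hf : 𝔣 ≠ ⊥) {q : ℕ} (hq : 0 < q)
    (hcop : IsCoprime 𝔣 (Ideal.span {(q : 𝓞 K)})) (x y : 𝓞 K) :
    ∃ z : 𝓞 K, z - x ∈ 𝔣 ∧ z - y ∈ Ideal.span {(q : 𝓞 K)} ∧ TPos K z ∧ z ≠ 0 := by
  obtain ⟨a, ha, b, hb, hab⟩ := (Ideal.isCoprime_iff_exists).1 hcop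
  have hN : 0 < Ideal.absNorm 𝔣 :=
    Nat.pos_of_ne_zero (by rwa [Ne, Ideal.absNorm_eq_zero_iff])
  obtain ⟨k, hk1, hk2⟩ := exists_tpos (x * b + y * a) (Nat.mul_pos hN hq)
  refine ⟨_, ?_, ?_, hk1, hk2⟩
  · have e : x * b + y * a + (k : 𝓞 K) * ((Ideal.absNorm 𝔣 * q : ℕ) : 𝓞 K) - x =
        (y - x) * a + ((k : 𝓞 K) * q) * (Ideal.absNorm 𝔣 : 𝓞 K) := by
      push_cast
      linear_combination x * hab
    rw [e]
    exact 𝔣.add_mem (𝔣.mul_mem_left _ ha) (𝔣.mul_mem_left _ (Ideal.absNorm_mem 𝔣))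
  · have e : x * b + y * a + (k : 𝓞 K) * ((Ideal.absNorm 𝔣 * q : ℕ) : 𝓞 K) - y =
        (x - y) * b + ((k : 𝓞 K) * (Ideal.absNorm 𝔣 : 𝓞 K)) * (q : 𝓞 K) := by
      push_cast
      linear_combination y * hab
    rw [e]
    exact Ideal.add_mem _ (Ideal.mul_mem_left _ _ hb)
      (Ideal.mul_mem_left _ _ (Ideal.mem_span_singleton_self _))

/-- the value of a ray class character on totally positive integers depends on the class -/
lemma psi_congr {𝔣 : Ideal (𝓞 K)} {ψ : Ideal (𝓞 K) →*₀ ℂ} (hψ : IsPrimChar K 𝔣 ψ)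
    {x y : 𝓞 K} (hx : TPos K x) (hy : TPos K y) (hc : IsCoprime (Ideal.span {x}) 𝔣)
    (h : y - x ∈ 𝔣) : ψ (Ideal.span {x}) = ψ (Ideal.span {y}) := by
  obtain ⟨z₀, hz₀⟩ := coprime_iff.1 hc
  have hN : 0 < Ideal.absNorm 𝔣 :=
    Nat.pos_of_ne_zero (by rw [Ne, Ideal.absNorm_eq_zero_iff]; exact hψ.ne_bot)
  obtain ⟨k, hk1, hk2⟩ := exists_tpos z₀ hN
  set z : 𝓞 K := z₀ + (k : 𝓞 K) * (Ideal.absNorm 𝔣 : 𝓞 K) with hz
  have hxz : x * z - 1 ∈ 𝔣 := by
    have : x * z - 1 = (x * z₀ - 1) + (x * k) * (Ideal.absNorm 𝔣 : 𝓞 K) := by rw [hz]; ring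
    rw [this]
    exact 𝔣.add_mem hz₀ (𝔣.mul_mem_left _ (Ideal.absNorm_mem 𝔣))
  have hyz : y * z - 1 ∈ 𝔣 := by
    have : y * z - 1 = z * (y - x) + (x * z - 1) := by ring
    rw [this]
    exact 𝔣.add_mem (𝔣.mul_mem_left _ h) hxz
  have hpos : ∀ t : 𝓞 K, TPos K t → TPos K (t * z) := by
    intro t ht σ
    push_cast
    rw [map_mul]
    exact mul_pos (ht σ) (hk1 σ)
  have h1 := hψ.ray _ hxz (hpos x hx)
  have h2 := hψ.ray _ hyz (hpos y hy)
  rw [← Ideal.span_singleton_mul_span_singleton, map_mul] at h1 h2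
  have hz0 : ψ (Ideal.span {z}) ≠ 0 := by
    intro h0
    rw [h0, mul_zero] at h1
    exact zero_ne_one h1
  exact mul_right_cancel₀ hz0 (h1.trans h2.symm)

end Pool.Agent.Y772.TW
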