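import Pool.Agent.Y772.TW.Pos
import Pool.Agent.Y772.DK.Cc

/-!
# Twists of primitive ray class characters are primitive
-/

set_option autoImplicit false

open NumberField Complex

namespace Pool.Agent.Y772.TW

open Pool.Agent.Y773 Pool.Agent.Y772.SG Pool.Agent.Y772.DK

lemma prim_char {p m : ℕ} (hp : p.Prime) (hm : 0 < m) (χ : DirichletCharacter ℂ (p * m))
    (hχ : χ.IsPrimitive) : ∃ t : ℤ, (m : ℤ) ∣ t - 1 ∧ IsUnit ((t : ℤ) : ZMod (p * m)) ∧
      χ ((t : ℤ) : ZMod (p * m)) ≠ 1 := by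
  have hne : NeZero (p * m) := ⟨(Nat.mul_pos hp.pos hm).ne'⟩
  by_contra hcon
  have hd : m ∣ p * m := Dvd.intro_left p rfl
  have hker : (ZMod.unitsMap hd).ker ≤ χ.toUnitHom.ker := by
    intro u hu
    rw [MonoidHom.mem_ker] at hu ⊢
    by_contra h1
    apply hcon
    obtain ⟨t, ht⟩ := ZMod.intCast_surjective (u : ZMod (p * m))
    refine ⟨t, ?_, ?_, ?_⟩
    · have h2 := congrArg Units.val hu
      rw [ZMod.unitsMap_val, ← ht, Units.val_one] at h2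
      have h3 : ((t : ZMod (p * m)).cast : ZMod m) = (t : ZMod m) := ZMod.cast_intCast hd t
      rw [h3] at h2
      have h4 : (((1 : ℤ)) : ZMod m) = ((t : ℤ) : ZMod m) := by rw [h2]; simp
      exact (ZMod.intCast_eq_intCast_iff_dvd_sub _ _ _).1 h4
    · rw [ht]; exact u.isUnit
    · rw [ht]
      intro h2
      apply h1
      ext
      rw [MulChar.coe_toUnitHom, h2, Units.val_one]
  have hft := (DirichletCharacter.factorsThrough_iff_ker_unitsMap (χ := χ) hd).2 hker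
  have h1 : χ.conductor ≤ m := Nat.sInf_le hft
  have h2 : χ.conductor = p * m := hχ
  rw [h2] at h1
  have h3 := hp.two_le
  nlinarith

/-- TW -/
theorem tw_prim {K : Type} [Field K] [NumberField K] {𝔣 : Ideal (𝓞 K)}
    {ψ : Ideal (𝓞 K) →*₀ ℂ} (hψ : IsPrimChar K 𝔣 ψ) {q : ℕ} (χ : DirichletCharacter ℂ q)
    (hq : 1 ≤ q) (hχ : χ.IsPrimitive) (hN : Nat.Coprime q (Ideal.absNorm 𝔣))
    (hdisc : IsCoprime (q : ℤ) (discr K)) :
    IsPrimChar K (𝔣 * Ideal.span {(q : 𝓞 K)}) (tw ψ χ) := by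
  classical
  have hq0 : 0 < q := hq
  have hcop : IsCoprime 𝔣 (Ideal.span {(q : 𝓞 K)}) := coprime_q.2 hN.symm
  have hQ0 : (Ideal.span {(q : 𝓞 K)} : Ideal (𝓞 K)) ≠ 0 := by
    rw [Ne, Ideal.zero_eq_bot, Ideal.span_singleton_eq_bot]
    exact_mod_cast hq0.ne'
  have htw : ∀ 𝔞 : Ideal (𝓞 K), tw ψ χ 𝔞 = ψ 𝔞 * χ ((Ideal.absNorm 𝔞 : ℕ) : ZMod q) :=
    fun 𝔞 => rfl
  -- the value at totally positive integers
  have hval : ∀ z : 𝓞 K, z ≠ 0 → TPos K z → tw ψ χ (Ideal.span {z}) =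
      ψ (Ideal.span {z}) * χ ((Algebra.norm ℤ z : ℤ) : ZMod q) := by
    intro z hz0 hz
    rw [htw]
    congr 2
    have := absNorm_tpos hz0 hz
    rw [← this]
    simp
  have hone : ∀ z : 𝓞 K, z - 1 ∈ Ideal.span {(q : 𝓞 K)} →
      χ ((Algebra.norm ℤ z : ℤ) : ZMod q) = 1 := by
    intro z hz
    rw [norm_eq_of_sub hz, map_one, Int.cast_one, map_one]
  have hmul1 : 𝔣 * Ideal.span {(q : 𝓞 K)} ≤ 𝔣 := Ideal.mul_le_left
  have hmul2 : 𝔣 * Ideal.span {(q : 𝓞 K)} ≤ Ideal.span {(q : 𝓞 K)} := Ideal.mul_le_right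
  have hcone : ∀ (J : Ideal (𝓞 K)) (z : 𝓞 K), z - 1 ∈ J → IsCoprime (Ideal.span {z}) J := by
    intro J z hz
    exact coprime_iff.2 ⟨1, by rwa [mul_one]⟩
  refine ⟨mul_ne_zero hψ.ne_bot hQ0, fun 𝔞 h𝔞 => ?_, fun x hx hpos => ?_, fun 𝔤 hg1 hg2 => ?_⟩
  · rw [IsCoprime.mul_right_iff, htw, mul_ne_zero_iff, hψ.supp 𝔞 h𝔞, coprime_q]
    refine and_congr Iff.rfl ?_
    rw [← ZMod.isUnit_iff_coprime]
    constructor
    · intro h
      by_contra h1
      exact h (χ.map_nonunit h1)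
    · intro h
      exact (h.map χ).ne_zero
  · have h1 := hψ.ray x (hmul1 hx) hpos
    have hx0 : x ≠ 0 := by
      rintro rfl
      rw [Ideal.span_singleton_eq_bot.2 rfl, ← Ideal.zero_eq_bot, map_zero] at h1
      exact zero_ne_one h1
    rw [hval x hx0 hpos, h1, hone x (hmul2 hx), one_mul]
  · obtain ⟨𝔤₁, 𝔤₂, h1, h2, rfl⟩ := exists_dvd_and_dvd_of_dvd_mul hg1
    have hle1 : 𝔣 ≤ 𝔤₁ := Ideal.dvd_iff_le.1 h1
    have hle2 : Ideal.span {(q : 𝓞 K)} ≤ 𝔤₂ := Ideal.dvd_iff_le.1 h2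
    have hcop12 : IsCoprime 𝔤₁ 𝔤₂ := hcop.of_isCoprime_of_dvd_left h1 |>.of_isCoprime_of_dvd_right h2
    have hmem : ∀ z : 𝓞 K, z ∈ 𝔤₁ → z ∈ 𝔤₂ → z ∈ 𝔤₁ * 𝔤₂ := by
      intro z hz1 hz2
      rw [Ideal.mul_eq_inf_of_coprime (Ideal.isCoprime_iff_sup_eq.1 hcop12)]
      exact ⟨hz1, hz2⟩
    by_cases hc : 𝔤₁ = 𝔣
    · -- case (ii)
      have hg2' : 𝔤₂ ≠ Ideal.span {(q : 𝓞 K)} := by
        intro h
        exact hg2 (by rw [hc, h])
      obtain ⟨𝔥, h𝔥⟩ := h2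
      have h𝔥0 : 𝔥 ≠ 0 := by
        rintro rfl
        rw [mul_zero] at h𝔥
        exact hQ0 h𝔥
      have h𝔥1 : ¬ IsUnit 𝔥 := by
        intro h
        rw [Ideal.isUnit_iff] at h
        rw [h, Ideal.mul_top] at h𝔥
        exact hg2' h𝔥.symm
      obtain ⟨P, hPi, 𝔥', rfl⟩ := WfDvdMonoid.exists_irreducible_factor h𝔥1 h𝔥0
      have hPp : Prime P := UniqueFactorizationMonoid.irreducible_iff_prime.1 hPi
      obtain ⟨p, hp, hover⟩ := below hPp
      have hPprime : P.IsPrime := Ideal.isPrime_of_prime hPp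
      have hover2 : P.LiesOver (Ideal.span {(p : ℤ)}) := hover.2
      have hmemP : ∀ n : ℕ, ((n : 𝓞 K)) ∈ P ↔ p ∣ n := by
        intro n
        have h3 : (n : ℤ) ∈ Ideal.span {(p : ℤ)} ↔ algebraMap ℤ (𝓞 K) (n : ℤ) ∈ P :=
          P.mem_of_liesOver (Ideal.span {(p : ℤ)}) (n : ℤ)
        rw [Ideal.mem_span_singleton] at h3
        simp only [algebraMap_int_eq, eq_intCast, Int.cast_natCast] at h3
        rw [← h3]
        exact Int.natCast_dvd_natCast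
      have hpP : Ideal.span {(p : 𝓞 K)} ≤ P := by
        rw [Ideal.span_singleton_le_iff_mem]
        exact (hmemP p).2 dvd_rfl
      obtain ⟨P', hPP'⟩ := Ideal.dvd_iff_le.2 hpP
      have hPQ : Ideal.span {(q : 𝓞 K)} ≤ P := by
        rw [h𝔥]
        exact Ideal.dvd_iff_le.1 ⟨𝔤₂ * 𝔥', by ring⟩
      have hpq : p ∣ q := by
        rw [Ideal.span_singleton_le_iff_mem] at hPQ
        exact (hmemP q).1 hPQ
      have hpd : ¬ (p : ℤ) ∣ discr K := by
        intro h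
        have h3 : (p : ℤ) ∣ q := by exact_mod_cast hpq
        have h4 := hdisc.isUnit_of_dvd' h3 h
        rw [Int.isUnit_iff] at h4
        have := hp.two_le
        omega
      obtain ⟨m, rfl⟩ := hpq
      have hm0 : 0 < m := Nat.pos_of_mul_pos_left hq0
      obtain ⟨t, ht1, ht2, ht3⟩ := prim_char hp hm0 χ hχ
      obtain ⟨y, hy1, hy2⟩ := norm_surj hq0 hp (Dvd.intro m rfl) hpd hPprime hPP'.symm t
        (by rwa [Nat.mul_div_cancel_left m hp.pos])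
      rw [Nat.mul_div_cancel_left m hp.pos] at hy1
      -- (m) P' ≤ 𝔤₂
      have hmP' : Ideal.span {(m : 𝓞 K)} * P' ≤ 𝔤₂ := by
        have h3 : 𝔤₂ * 𝔥' = Ideal.span {(m : 𝓞 K)} * P' := by
          have h4 : P * (𝔤₂ * 𝔥') = P * (Ideal.span {(m : 𝓞 K)} * P') := by
            calc P * (𝔤₂ * 𝔥') = 𝔤₂ * (P * 𝔥') := by ring
              _ = Ideal.span {((p * m : ℕ) : 𝓞 K)} := h𝔥.symm
              _ = Ideal.span {(p : 𝓞 K)} * Ideal.span {(m : 𝓞 K)} := by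
                rw [Ideal.span_singleton_mul_span_singleton]; push_cast; rfl
              _ = _ := by rw [hPP']; ring
          exact mul_left_cancel₀ hPp.ne_zero h4
        rw [← h3]
        exact Ideal.mul_le_left
      obtain ⟨z, hz1, hz2, hz3, hz4⟩ := crt_tpos hψ.ne_bot hq0 hcop 1 y
      have hNz : ((Algebra.norm ℤ z : ℤ) : ZMod (p * m)) = (t : ZMod (p * m)) := by
        rw [norm_eq_of_sub hz2, hy2]
      refine ⟨z, hmem _ (hle1 hz1) ?_, hz3, ?_, ?_⟩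
      · have : z - 1 = (z - y) + (y - 1) := by ring
        rw [this]
        exact 𝔤₂.add_mem (hle2 hz2) (hmP' hy1)
      · rw [IsCoprime.mul_right_iff]
        refine ⟨hcone _ _ hz1, coprime_q.2 ?_⟩
        rw [← ZMod.isUnit_iff_coprime]
        have h5 : ((Ideal.absNorm (Ideal.span {z}) : ℕ) : ZMod (p * m)) =
            ((Algebra.norm ℤ z : ℤ) : ZMod (p * m)) := by
          rw [← absNorm_tpos hz4 hz3]
          simp
        rw [h5, hNz]
        exact ht2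
      · rw [hval z hz4 hz3, hψ.ray z hz1 hz3, one_mul, hNz]
        exact ht3
    · -- case (i)
      obtain ⟨x₀, hx1, hx2, hx3, hx4⟩ := hψ.prim 𝔤₁ h1 hc
      obtain ⟨z, hz1, hz2, hz3, hz4⟩ := crt_tpos hψ.ne_bot hq0 hcop x₀ 1
      refine ⟨z, hmem _ ?_ (hle2 hz2), hz3, ?_, ?_⟩
      · have : z - 1 = (z - x₀) + (x₀ - 1) := by ring
        rw [this]
        exact 𝔤₁.add_mem (hle1 hz1) hx1
      · rw [IsCoprime.mul_right_iff]
        exact ⟨coprime_congr hz1 hx3, hcone _ _ hz2⟩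
      · rw [hval z hz4 hz3, hone z hz2, mul_one, ← psi_congr hψ hx2 hz3 hx3 hz1]
        exact hx4

theorem t_tw : StTw := by
  intro K _ _ _ 𝔣 ψ hψ q χ hq hχ hN hdisc
  exact tw_prim hψ χ hq hχ hN hdisc

end Pool.Agent.Y772.TW
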