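import Mathlib

/-!
# The norm modulo an unramified prime
-/

set_option autoImplicit false

open NumberField
open scoped TensorProduct

namespace Pool.Agent.Y772.TW

variable {K : Type} [Field K] [NumberField K]

/-- the algebra norm modulo `p` -/
lemma norm_tensor (p : ℕ) [Fact p.Prime] (y : 𝓞 K) :
    Algebra.norm (ZMod p) ((1 : ZMod p) ⊗ₜ[ℤ] y) = ((Algebra.norm ℤ y : ℤ) : ZMod p) := by
  have h := LinearMap.det_baseChange (A := ZMod p) (Algebra.lmul ℤ (𝓞 K) y)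
  rw [← Algebra.norm_apply] at h
  rw [Algebra.norm_apply]
  have e1 : (Algebra.lmul (ZMod p) (ZMod p ⊗[ℤ] 𝓞 K) ((1 : ZMod p) ⊗ₜ[ℤ] y)) =
      LinearMap.baseChange (ZMod p) (Algebra.lmul ℤ (𝓞 K) y) := by
    ext x
    simp
  rw [e1]
  exact h

lemma caseA {p : ℕ} (hp : p.Prime) {P P' : Ideal (𝓞 K)} (hP : P.IsPrime)
    (hPP : P * P' = Ideal.span {(p : 𝓞 K)}) (hcop : IsCoprime P P') (t : ZMod p) :
    ∃ y : 𝓞 K, y - 1 ∈ P' ∧ ((Algebra.norm ℤ y : ℤ) : ZMod p) = t := by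
  have : Fact p.Prime := ⟨hp⟩
  have hP0 : P ≠ ⊥ := by
    rintro rfl
    rw [Ideal.bot_mul] at hPP
    have := (Ideal.span_singleton_eq_bot (x := (p : 𝓞 K))).1 hPP.symm
    exact hp.ne_zero (by exact_mod_cast this)
  have hPm : P.IsMaximal := hP.isMaximal hP0
  have hpP : (p : 𝓞 K) ∈ P := by
    have h1 : P * P' ≤ P := Ideal.mul_le_left
    rw [hPP, Ideal.span_singleton_le_iff_mem] at h1
    exact h1
  have : Finite (𝓞 K ⧸ P) := Ideal.finiteQuotientOfFreeOfNeBot P hP0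
  let _ : Field (𝓞 K ⧸ P) := Ideal.Quotient.field P
  have hchar : CharP (𝓞 K ⧸ P) p := by
    refine (CharP.charP_iff_prime_eq_zero hp).2 ?_
    have h1 : ((p : ℕ) : 𝓞 K ⧸ P) = Ideal.Quotient.mk P (p : 𝓞 K) := by simp
    rw [h1]
    exact Ideal.Quotient.eq_zero_iff_mem.2 hpP
  let _ : Algebra (ZMod p) (𝓞 K ⧸ P) := ZMod.algebra _ p
  obtain ⟨ubar, hu⟩ := FiniteField.norm_surjective (ZMod p) (𝓞 K ⧸ P) t
  obtain ⟨u, rfl⟩ := Ideal.Quotient.mk_surjective ubar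
  obtain ⟨i, hi, j, hj, hij⟩ := (Ideal.isCoprime_iff_exists).1 hcop
  set y : 𝓞 K := u * j + i with hy
  have hy1 : y - 1 ∈ P' := by
    have : y - 1 = (u - 1) * j := by rw [hy]; linear_combination hij
    rw [this]
    exact P'.mul_mem_left _ hj
  have hyu : Ideal.Quotient.mk P y = Ideal.Quotient.mk P u := by
    refine Ideal.Quotient.eq.2 ?_
    have : y - u = (1 - u) * i := by rw [hy]; linear_combination u * hij
    rw [this]
    exact P.mul_mem_left _ hi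
  refine ⟨y, hy1, ?_⟩
  rw [← norm_tensor, Algebra.norm_apply]
  set V := ZMod p ⊗[ℤ] 𝓞 K
  set Φ : V →ₐ[ZMod p] (𝓞 K ⧸ P) := Algebra.TensorProduct.lift (Algebra.ofId (ZMod p) (𝓞 K ⧸ P))
    (Ideal.Quotient.mkₐ ℤ P) (fun _ _ => Commute.all _ _) with hΦ
  have hΦ1 : ∀ x : 𝓞 K, Φ ((1 : ZMod p) ⊗ₜ[ℤ] x) = Ideal.Quotient.mk P x := by
    intro x
    rw [hΦ, Algebra.TensorProduct.lift_tmul, map_one, one_mul]
    rfl
  have hsurj : Function.Surjective Φ := by
    intro z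
    obtain ⟨x, rfl⟩ := Ideal.Quotient.mk_surjective z
    exact ⟨_, hΦ1 x⟩
  set W : Submodule (ZMod p) V := LinearMap.ker Φ.toLinearMap with hW
  set e : V →ₗ[ZMod p] V := Algebra.lmul (ZMod p) V ((1 : ZMod p) ⊗ₜ[ℤ] y) with he
  have hev : ∀ w, e w = ((1 : ZMod p) ⊗ₜ[ℤ] y) * w := fun w => rfl
  have hWe : W ≤ W.comap e := by
    intro w hw
    rw [Submodule.mem_comap, hW, LinearMap.mem_ker]
    rw [hW, LinearMap.mem_ker] at hw
    change Φ (e w) = 0
    change Φ w = 0 at hw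
    rw [hev, map_mul, hw, mul_zero]
  have hrep : ∀ w : V, ∃ x : 𝓞 K, w = (1 : ZMod p) ⊗ₜ[ℤ] x := by
    intro w
    induction w using TensorProduct.induction_on with
    | zero => exact ⟨0, by rw [TensorProduct.tmul_zero]⟩
    | tmul a b =>
      obtain ⟨n, rfl⟩ := ZMod.intCast_surjective a
      refine ⟨n • b, ?_⟩
      rw [← TensorProduct.smul_tmul]
      congr 1
      simp
    | add a b ha hb =>
      obtain ⟨x, rfl⟩ := ha
      obtain ⟨z, rfl⟩ := hb
      exact ⟨x + z, by rw [TensorProduct.tmul_add]⟩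
  have hid : e.restrict hWe = LinearMap.id := by
    ext ⟨w, hw⟩
    obtain ⟨x, rfl⟩ := hrep w
    have hx : x ∈ P := by
      rw [hW, LinearMap.mem_ker] at hw
      change Φ ((1 : ZMod p) ⊗ₜ[ℤ] x) = 0 at hw
      rw [hΦ1] at hw
      exact Ideal.Quotient.eq_zero_iff_mem.1 hw
    have h1 : x * (y - 1) ∈ Ideal.span {(p : 𝓞 K)} := by
      rw [← hPP]
      exact Ideal.mul_mem_mul hx hy1
    obtain ⟨z, hz⟩ := Ideal.mem_span_singleton'.1 h1
    have h2 : e ((1 : ZMod p) ⊗ₜ[ℤ] x) = (1 : ZMod p) ⊗ₜ[ℤ] x := by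
      rw [hev, Algebra.TensorProduct.tmul_mul_tmul, one_mul]
      have h3 : y * x = x + (p : ℤ) • z := by
        have : x * (y - 1) = z * (p : 𝓞 K) := hz.symm
        have h4 : (p : ℤ) • z = z * (p : 𝓞 K) := by
          rw [zsmul_eq_mul]; push_cast; ring
        rw [h4]
        linear_combination this
      rw [h3, TensorProduct.tmul_add, ← TensorProduct.smul_tmul]
      have h5 : ((p : ℤ) • (1 : ZMod p)) = 0 := by simp
      rw [h5, TensorProduct.zero_tmul, add_zero]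
    exact h2
  have hdet := LinearMap.det_eq_det_mul_det W e hWe
  rw [hid, LinearMap.det_id, one_mul] at hdet
  rw [hdet, ← hu, Algebra.norm_apply, ← hyu]
  have hfin : Module.Finite (ZMod p) (𝓞 K ⧸ P) := Module.Finite.of_finite
  set E : (V ⧸ W) ≃ₗ[ZMod p] (𝓞 K ⧸ P) :=
    LinearMap.quotKerEquivOfSurjective Φ.toLinearMap hsurj with hE
  rw [← LinearMap.det_conj (W.mapQ W e hWe) E]
  congr 1
  ext z
  obtain ⟨w, rfl⟩ := E.surjective z
  obtain ⟨v, rfl⟩ := Submodule.Quotient.mk_surjective W w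
  have hEv : ∀ v : V, E (Submodule.Quotient.mk v) = Φ v := fun v => rfl
  simp only [LinearMap.comp_apply, LinearEquiv.coe_coe, LinearEquiv.symm_apply_apply]
  rw [Submodule.mapQ_apply, hEv, hEv, hev, map_mul, hΦ1]
  rfl

end Pool.Agent.Y772.TW
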