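import Pool.Agent.Y772.TW.CaseA
import Pool.Agent.W45.Ch.Twist

/-!
# The norm modulo prime powers
-/

set_option autoImplicit false

open NumberField

namespace Pool.Agent.Y772.TW

variable {K : Type} [Field K] [NumberField K]

/-- the trace form is not degenerate modulo `p` -/
lemma tr_span {p : ℕ} (hp : p.Prime) (hd : ¬ (p : ℤ) ∣ discr K) {J : Ideal (𝓞 K)}
    (h : ∀ z ∈ J, (p : ℤ) ∣ Algebra.trace ℤ (𝓞 K) z) : J ≤ Ideal.span {(p : 𝓞 K)} := by
  classical
  intro z hz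
  set b := RingOfIntegers.basis K with hb
  set A := Algebra.traceMatrix ℤ b with hA
  have hdet : A.det = discr K := by
    rw [hA, ← Algebra.discr_def, discr_eq_discr]
  have h1 : ∀ i, (p : ℤ) ∣ A.mulVec (b.repr z) i := by
    intro i
    have h2 : A.mulVec (b.repr z) i = Algebra.trace ℤ (𝓞 K) (b i * z) := by
      rw [Matrix.mulVec, dotProduct]
      have h3 : z = ∑ j, (b.repr z j) • b j := (b.sum_repr z).symm
      conv_rhs => rw [h3]
      rw [Finset.mul_sum, map_sum]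
      refine Finset.sum_congr rfl fun j _ => ?_
      rw [hA, Algebra.traceMatrix_apply, Algebra.traceForm_apply, mul_smul_comm, map_smul,
        smul_eq_mul, mul_comm]
    rw [h2]
    exact h _ (J.mul_mem_left _ hz)
  have h4 : ∀ i, (p : ℤ) ∣ b.repr z i := by
    intro i
    have h5 : (A.adjugate.mulVec (A.mulVec (b.repr z))) i = A.det * b.repr z i := by
      rw [Matrix.mulVec_mulVec, Matrix.adjugate_mul, Matrix.smul_mulVec, Matrix.one_mulVec]
      rfl
    have h6 : (p : ℤ) ∣ A.det * b.repr z i := by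
      rw [← h5, Matrix.mulVec, dotProduct]
      exact Finset.dvd_sum fun j _ => (h1 j).mul_left _
    have hpp : Prime (p : ℤ) := Nat.prime_iff_prime_int.1 hp
    rcases hpp.dvd_or_dvd h6 with h7 | h7
    · rw [hdet] at h7
      exact absurd h7 hd
    · exact h7
  choose c hc using h4
  rw [Ideal.mem_span_singleton]
  refine ⟨∑ i, c i • b i, ?_⟩
  rw [Finset.mul_sum]
  conv_lhs => rw [← b.sum_repr z]
  refine Finset.sum_congr rfl fun i _ => ?_
  rw [hc i, mul_smul, zsmul_eq_mul]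
  push_cast
  rfl

lemma quot_ne {p : ℕ} (hp : p.Prime) {P P' : Ideal (𝓞 K)} (hP : P.IsPrime)
    (hPP : P * P' = Ideal.span {(p : 𝓞 K)}) : ¬ P' ≤ Ideal.span {(p : 𝓞 K)} := by
  intro h
  have hp0 : (Ideal.span {(p : 𝓞 K)} : Ideal (𝓞 K)) ≠ 0 := by
    rw [Ne, Ideal.zero_eq_bot, Ideal.span_singleton_eq_bot]
    exact_mod_cast hp.ne_zero
  have hP'0 : P' ≠ 0 := by
    rintro rfl
    rw [mul_zero] at hPP
    exact hp0 hPP.symm
  have h1 : P * P' ≤ P' := Ideal.mul_le_right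
  have h2 : P * P' = 1 * P' := by
    rw [one_mul]
    refine le_antisymm h1 ?_
    rw [hPP]
    exact h
  have h3 := mul_right_cancel₀ hP'0 h2
  exact hP.ne_top (by rw [h3, Ideal.one_eq_top])

lemma tr_ne {p : ℕ} (hp : p.Prime) (hd : ¬ (p : ℤ) ∣ discr K) {P P' : Ideal (𝓞 K)}
    (hP : P.IsPrime) (hPP : P * P' = Ideal.span {(p : 𝓞 K)}) :
    ∃ z ∈ P', ¬ (p : ℤ) ∣ Algebra.trace ℤ (𝓞 K) z := by
  by_contra hcon
  push Not at hcon
  exact quot_ne hp hP hPP (tr_span hp hd hcon)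

/-- nilpotent elements modulo `p` have trace divisible by `p` -/
lemma tr_nil {p : ℕ} (hp : p.Prime) {z : 𝓞 K} (hz : z ^ 2 ∈ Ideal.span {(p : 𝓞 K)}) :
    (p : ℤ) ∣ Algebra.trace ℤ (𝓞 K) z := by
  classical
  have : Fact p.Prime := ⟨hp⟩
  set b := RingOfIntegers.basis K with hb
  obtain ⟨w, hw⟩ := Ideal.mem_span_singleton'.1 hz
  set M : Matrix _ _ (ZMod p) := (Algebra.leftMulMatrix b z).map (Int.castRingHom (ZMod p)) with hM
  have hM' : M = (Int.castRingHom (ZMod p)).mapMatrix (Algebra.leftMulMatrix b z) := rfl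
  have h1 : M ^ 2 = 0 := by
    rw [hM', ← map_pow, ← map_pow, ← hw]
    have h2 : w * (p : 𝓞 K) = (p : ℤ) • w := by
      rw [zsmul_eq_mul]; push_cast; ring
    rw [h2, map_smul]
    ext i j
    rw [RingHom.mapMatrix_apply, Matrix.map_apply, Matrix.smul_apply, smul_eq_mul, map_mul]
    simp
  have h3 : IsNilpotent M.trace := Matrix.isNilpotent_trace_of_isNilpotent ⟨2, h1⟩
  have h4 : M.trace = 0 := h3.eq_zero
  have h5 : M.trace = ((Algebra.trace ℤ (𝓞 K) z : ℤ) : ZMod p) := by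
    rw [Algebra.trace_eq_matrix_trace b, Matrix.trace, Matrix.trace, Int.cast_sum]
    rfl
  rw [h5] at h4
  exact (ZMod.intCast_zmod_eq_zero_iff_dvd _ p).1 h4

lemma coprime_PP {p : ℕ} (hp : p.Prime) (hd : ¬ (p : ℤ) ∣ discr K) {P P' : Ideal (𝓞 K)}
    (hP : P.IsPrime) (hPP : P * P' = Ideal.span {(p : 𝓞 K)}) : IsCoprime P P' := by
  have hP0 : P ≠ ⊥ := by
    rintro rfl
    rw [Ideal.bot_mul] at hPP
    have := (Ideal.span_singleton_eq_bot (x := (p : 𝓞 K))).1 hPP.symm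
    exact hp.ne_zero (by exact_mod_cast this)
  have hPm : P.IsMaximal := hP.isMaximal hP0
  rw [Ideal.isCoprime_iff_sup_eq]
  by_contra hne
  have h9 := hPm.eq_of_le hne le_sup_left
  have h10 : P' ≤ P := by
    rw [h9]
    exact le_sup_right
  refine quot_ne hp hP hPP (tr_span hp hd fun z hz => tr_nil hp ?_)
  rw [pow_two, ← hPP]
  exact Ideal.mul_mem_mul (h10 hz) hz

/-- the norm of `1 + c z` -/
lemma norm_one_add (c : ℤ) (z : 𝓞 K) : ∃ k : ℤ,
    Algebra.norm ℤ (1 + c • z) = 1 + c * Algebra.trace ℤ (𝓞 K) z + c ^ 2 * k := by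
  classical
  set b := RingOfIntegers.basis K with hb
  rw [Algebra.norm_eq_matrix_det b, map_add, map_one, map_smul, Matrix.det_one_add_smul,
    ← Algebra.trace_eq_matrix_trace b]
  refine ⟨(Matrix.det (1 + (Polynomial.X : Polynomial ℤ) •
    ((Algebra.leftMulMatrix b) z).map Polynomial.C)).divX.divX.eval c, ?_⟩
  ring

lemma norm_eq_of_sub {M : ℕ} {x y : 𝓞 K} (h : x - y ∈ Ideal.span {(M : 𝓞 K)}) :
    ((Algebra.norm ℤ x : ℤ) : ZMod M) = ((Algebra.norm ℤ y : ℤ) : ZMod M) := by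
  obtain ⟨w, hw⟩ := Ideal.mem_span_singleton'.1 h
  have h1 : x = (M : ℤ) • w + y := by
    rw [zsmul_eq_mul]
    push_cast
    linear_combination -hw
  rw [h1]
  exact Pool.Agent.W45.Ch.norm_congr K M y w

/-- norms of the elements `≡ 1` modulo `(q) P⁻¹` -/
lemma norm_surj {q p : ℕ} (hq : 0 < q) (hp : p.Prime) (hpq : p ∣ q) (hd : ¬ (p : ℤ) ∣ discr K)
    {P P' : Ideal (𝓞 K)} (hP : P.IsPrime) (hPP : P * P' = Ideal.span {(p : 𝓞 K)}) (t : ℤ)
    (ht : ((q / p : ℕ) : ℤ) ∣ t - 1) :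
    ∃ y : 𝓞 K, y - 1 ∈ Ideal.span {((q / p : ℕ) : 𝓞 K)} * P' ∧
      ((Algebra.norm ℤ y : ℤ) : ZMod q) = (t : ZMod q) := by
  obtain ⟨m, rfl⟩ := hpq
  have hp0 : 0 < p := hp.pos
  have hm0 : 0 < m := Nat.pos_of_mul_pos_left hq
  rw [Nat.mul_div_cancel_left m hp0] at ht ⊢
  by_cases hpm : p ∣ m
  · -- the additive case
    obtain ⟨s, hs⟩ := ht
    obtain ⟨z₀, hz₀, hz₁⟩ := tr_ne hp hd hP hPP
    have hpp : Prime (p : ℤ) := Nat.prime_iff_prime_int.1 hp
    have hcop : IsCoprime (p : ℤ) (Algebra.trace ℤ (𝓞 K) z₀) :=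
      (Irreducible.coprime_iff_not_dvd hpp.irreducible).2 hz₁
    obtain ⟨u, v, huv⟩ := hcop
    obtain ⟨k, hk⟩ := norm_one_add (m : ℤ) ((s * v) • z₀)
    refine ⟨1 + (m : ℤ) • ((s * v) • z₀), ?_, ?_⟩
    · rw [add_sub_cancel_left, zsmul_eq_mul]
      push_cast
      refine Ideal.mul_mem_mul (Ideal.mem_span_singleton_self _) ?_
      exact zsmul_mem hz₀ _
    · rw [hk]
      rw [ZMod.intCast_eq_intCast_iff_dvd_sub]
      obtain ⟨m', rfl⟩ := hpm
      rw [map_smul, smul_eq_mul]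
      have h1 : t = 1 + ((p * m' : ℕ) : ℤ) * s := by linear_combination hs
      refine ⟨s * u - m' * k, ?_⟩
      rw [h1]
      push_cast
      push_cast at huv
      linear_combination (-(p : ℤ) * m' * s) * huv
  · -- the multiplicative case
    have hcop : IsCoprime (m : ℤ) (p : ℤ) := by
      rw [Nat.isCoprime_iff_coprime]
      exact ((Nat.Prime.coprime_iff_not_dvd hp).2 hpm).symm
    obtain ⟨u, v, huv⟩ := hcop
    obtain ⟨y₀, hy₀, hy₁⟩ := caseA hp hP hPP (coprime_PP hp hd hP hPP) (t : ZMod p)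
    have huv' : ((u : 𝓞 K)) * (m : 𝓞 K) + (v : 𝓞 K) * (p : 𝓞 K) = 1 := by
      exact_mod_cast congrArg (Int.cast : ℤ → 𝓞 K) huv
    set y : 𝓞 K := y₀ * (u * m) + v * p with hy
    have e1 : y - 1 = (m : 𝓞 K) * (u * (y₀ - 1)) := by
      rw [hy]; linear_combination huv'
    have e2 : y - y₀ = (v * (1 - y₀)) * (p : 𝓞 K) := by
      rw [hy]; linear_combination y₀ * huv'
    refine ⟨y, ?_, ?_⟩
    · rw [e1]
      exact Ideal.mul_mem_mul (Ideal.mem_span_singleton_self _) (P'.mul_mem_left _ hy₀)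
    · have f1 : ((Algebra.norm ℤ y : ℤ) : ZMod p) = (t : ZMod p) := by
        rw [← hy₁]
        refine norm_eq_of_sub ?_
        rw [e2]
        exact Ideal.mul_mem_left _ _ (Ideal.mem_span_singleton_self _)
      have f2 : ((Algebra.norm ℤ y : ℤ) : ZMod m) = (t : ZMod m) := by
        have g1 : ((Algebra.norm ℤ y : ℤ) : ZMod m) = ((Algebra.norm ℤ (1 : 𝓞 K) : ℤ) : ZMod m) := by
          refine norm_eq_of_sub ?_
          rw [e1]
          exact Ideal.mul_mem_right _ _ (Ideal.mem_span_singleton_self _)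
        rw [g1, map_one]
        rw [ZMod.intCast_eq_intCast_iff_dvd_sub]
        exact ht
      rw [ZMod.intCast_eq_intCast_iff_dvd_sub] at f1 f2 ⊢
      push_cast
      exact (Nat.isCoprime_iff_coprime.2 ((Nat.Prime.coprime_iff_not_dvd hp).2 hpm)).mul_dvd f1 f2

end Pool.Agent.Y772.TW
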